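import Pool.Agent.Helper41.LC.Explicit

/-!
# The asymptotic lower bound
-/

namespace Helper41.LC

open Helper67.Cube Filter Topology

/-- choice of the parameters -/
lemma exists_params (a : ℝ) (ha : a * Real.exp 1 < Real.pi) : ∃ (δ : ℝ) (s : ℕ), 0 < δ ∧
    δ < 1 / 2 ∧ 0 < s ∧
    a * Real.exp 1 * Real.exp (1 / Real.sqrt s / (2 * δ)) ≤ 2 * Real.arcsin (1 - 2 * δ) := by
  have h1 : Tendsto (fun δ : ℝ => 2 * Real.arcsin (1 - 2 * δ)) (𝓝[>] 0) (𝓝 Real.pi) := by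
    have hc : Continuous fun δ : ℝ => 2 * Real.arcsin (1 - 2 * δ) :=
      continuous_const.mul (Real.continuous_arcsin.comp (by fun_prop))
    have := (hc.tendsto 0).mono_left (nhdsWithin_le_nhds (s := Set.Ioi 0))
    simpa [mul_div_cancel₀] using this
  have h2 : ∀ᶠ δ : ℝ in 𝓝[>] 0, a * Real.exp 1 < 2 * Real.arcsin (1 - 2 * δ) :=
    h1.eventually_const_lt ha
  have h3 : ∀ᶠ δ : ℝ in 𝓝[>] 0, δ < 1 / 2 :=
    (eventually_lt_nhds (by norm_num : (0 : ℝ) < 1 / 2)).filter_mono nhdsWithin_le_nhds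
  obtain ⟨δ, ⟨h4, h5⟩, h6⟩ := ((h2.and h3).and self_mem_nhdsWithin).exists
  have h6' : 0 < δ := h6
  have h7 : Tendsto (fun s : ℕ => a * Real.exp 1 * Real.exp (1 / Real.sqrt s / (2 * δ))) atTop
      (𝓝 (a * Real.exp 1 * Real.exp 0)) := by
    refine Tendsto.const_mul _ ((Real.continuous_exp.tendsto 0).comp ?_)
    have h8 : Tendsto (fun s : ℕ => 1 / Real.sqrt s) atTop (𝓝 0) := by
      have : Tendsto (fun s : ℕ => Real.sqrt s) atTop atTop :=
        Real.tendsto_sqrt_atTop.comp tendsto_natCast_atTop_atTop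
      have h := this.inv_tendsto_atTop
      simp only [one_div]
      exact h
    have := h8.div_const (2 * δ)
    simpa using this
  rw [Real.exp_zero, mul_one] at h7
  obtain ⟨s, h8, h9⟩ := ((h7.eventually_lt_const h4).and (eventually_gt_atTop 0)).exists
  exact ⟨δ, s, h6', h5, h9, h8.le⟩

lemma sqrt_le (d : ℕ) (hd : 1 ≤ d) :
    Real.sqrt (((d : ℝ) + 1) ^ (d+1)) ≤ 2 * (d + 1) * (Real.sqrt d) ^ d := by
  have hd' : (0 : ℝ) < d := by exact_mod_cast hd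
  have h1 : ((d : ℝ) + 1) ^ d ≤ 3 * (d : ℝ) ^ d := by
    have h2 : (1 + 1 / (d : ℝ)) ^ d ≤ Real.exp 1 := by
      calc (1 + 1 / (d : ℝ)) ^ d ≤ (Real.exp (1 / d)) ^ d := by
            apply pow_le_pow_left₀ (by positivity)
            have := Real.add_one_le_exp (1 / (d : ℝ))
            linarith
        _ = Real.exp 1 := by
            rw [← Real.exp_nat_mul]
            congr 1
            field_simp
    have h3 : Real.exp 1 ≤ 3 := by
      have := Real.exp_one_lt_d9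
      linarith
    calc ((d : ℝ) + 1) ^ d = (1 + 1 / (d : ℝ)) ^ d * (d : ℝ) ^ d := by
          rw [← mul_pow]; congr 1; field_simp
      _ ≤ 3 * (d : ℝ) ^ d := by gcongr; linarith
  rw [Real.sqrt_le_left (by positivity)]
  have h4 : (2 * ((d : ℝ) + 1) * (Real.sqrt d) ^ d) ^ 2 = 4 * (d + 1) ^ 2 * (d : ℝ) ^ d := by
    rw [mul_pow, mul_pow, ← pow_mul, mul_comm d 2, pow_mul, Real.sq_sqrt hd'.le]
    ring
  rw [h4, pow_succ]
  have h5 : (0 : ℝ) < (d : ℝ) ^ d := by positivity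
  calc ((d : ℝ) + 1) ^ d * (d + 1) ≤ (3 * (d : ℝ) ^ d) * (d + 1) := by gcongr
    _ = (3 * (d + 1)) * (d : ℝ) ^ d := by ring
    _ ≤ (4 * (d + 1) ^ 2) * (d : ℝ) ^ d := by
        refine mul_le_mul_of_nonneg_right ?_ h5.le
        nlinarith

theorem asymp (c : ℝ) (hc0 : 0 ≤ c) (hc : c < Real.pi / Real.exp 1) : ∃ d₀ : ℕ, ∀ d : ℕ, d₀ ≤ d →
    ∀ (N : ℕ) (W : Fin N → Fin (d+1) → Fin d → ℝ), IsCover W → (c * Real.sqrt d) ^ d ≤ N := by
  obtain ⟨a, hca, haπ⟩ := exists_between hc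
  have ha0 : 0 < a := lt_of_le_of_lt hc0 hca
  rw [lt_div_iff₀ (Real.exp_pos 1)] at haπ
  obtain ⟨δ, s, h0, h1, hs, hp⟩ := exists_params a haπ
  have hr : |c / a| < 1 := by
    rw [abs_of_nonneg (by positivity), div_lt_one ha0]; exact hca
  have hlim := (tendsto_pow_const_mul_const_pow_of_abs_lt_one (s + 1) hr).const_mul
    ((2 : ℝ) * 2 ^ (s + 1))
  rw [mul_zero] at hlim
  obtain ⟨d₀, hd₀⟩ := eventually_atTop.1 (hlim.eventually_lt_const one_pos)
  refine ⟨max d₀ 1, fun d hd N W hW => ?_⟩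
  have hd1 : 1 ≤ d := le_trans (le_max_right _ _) hd
  have hdpos : (0 : ℝ) < d := by exact_mod_cast hd1
  have hd1' : (1 : ℝ) ≤ d := by exact_mod_cast hd1
  have h2 := hd₀ d (le_trans (le_max_left _ _) hd)
  have h3 := explicit W hW δ h0 h1 s hs
  set E := Real.exp (1 / Real.sqrt s / (2 * δ)) with hE
  have hEpos : 0 < E := Real.exp_pos _
  have e1 : Real.exp (d / Real.sqrt s / (2 * δ)) = E ^ d := by
    rw [hE, ← Real.exp_nat_mul]
    congr 1
    ring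
  rw [e1] at h3
  have h4 : (a * Real.exp 1 * E) ^ d ≤ (2 * Real.arcsin (1 - 2 * δ)) ^ d :=
    pow_le_pow_left₀ (by positivity) hp d
  have h5 := h4.trans h3
  set F : ℝ := (d.factorial : ℝ) with hF
  have hFpos : 0 < F := by positivity
  set R := Real.sqrt (((d : ℝ) + 1) ^ (d+1)) with hR
  have h6 : (a * Real.exp 1) ^ d * F ≤ N * ((d : ℝ) + 1) ^ s * R := by
    rw [mul_pow (a * Real.exp 1) E] at h5
    have h7 : N * ((d : ℝ) + 1) ^ s * (E ^ d * R / F) = (N * ((d : ℝ) + 1) ^ s * R / F) * E ^ d := by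
      ring
    rw [h7] at h5
    have h8 := le_of_mul_le_mul_right h5 (pow_pos hEpos d)
    rwa [le_div_iff₀ hFpos] at h8
  have h7 : (d : ℝ) ^ d ≤ F * Real.exp 1 ^ d := by
    have := Real.pow_div_factorial_le_exp (d : ℝ) hdpos.le d
    rw [div_le_iff₀ hFpos] at this
    rw [← Real.exp_nat_mul, mul_one, mul_comm]
    exact this
  have h8 : (a * d) ^ d ≤ N * ((d : ℝ) + 1) ^ s * R := by
    calc (a * d) ^ d = a ^ d * (d : ℝ) ^ d := mul_pow _ _ _
      _ ≤ a ^ d * (F * Real.exp 1 ^ d) := by gcongr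
      _ = (a * Real.exp 1) ^ d * F := by rw [mul_pow]; ring
      _ ≤ _ := h6
  have hsq : (0 : ℝ) < Real.sqrt d := Real.sqrt_pos.2 hdpos
  have h9 : (a * Real.sqrt d) ^ d ≤ N * (2 * ((d : ℝ) + 1) ^ (s + 1)) := by
    have h10 : (a * d) ^ d = (a * Real.sqrt d) ^ d * (Real.sqrt d) ^ d := by
      rw [← mul_pow, mul_assoc, Real.mul_self_sqrt hdpos.le]
    rw [h10] at h8
    have h11 : N * ((d : ℝ) + 1) ^ s * R ≤ (N * (2 * ((d : ℝ) + 1) ^ (s + 1))) * (Real.sqrt d) ^ d := by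
      calc N * ((d : ℝ) + 1) ^ s * R
          ≤ N * ((d : ℝ) + 1) ^ s * (2 * (d + 1) * (Real.sqrt d) ^ d) := by
            have := sqrt_le d hd1
            gcongr
        _ = _ := by ring
    exact le_of_mul_le_mul_right (h8.trans h11) (pow_pos hsq d)
  have h10 : (2 : ℝ) * ((d : ℝ) + 1) ^ (s + 1) ≤ 2 * 2 ^ (s + 1) * (d : ℝ) ^ (s + 1) := by
    rw [mul_assoc, ← mul_pow]
    gcongr
    linarith
  calc (c * Real.sqrt d) ^ d = (c / a) ^ d * (a * Real.sqrt d) ^ d := by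
        rw [← mul_pow]; congr 1; field_simp
    _ ≤ (c / a) ^ d * (N * (2 * ((d : ℝ) + 1) ^ (s + 1))) := by gcongr
    _ ≤ (c / a) ^ d * (N * (2 * 2 ^ (s + 1) * (d : ℝ) ^ (s + 1))) := by gcongr
    _ = N * (2 * 2 ^ (s + 1) * ((d : ℝ) ^ (s + 1) * (c / a) ^ d)) := by ring
    _ ≤ N * 1 := by gcongr
    _ = N := mul_one _

end Helper41.LC
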