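import Pool.Agent.Helper67.CubeHad

/-!
# The volume of a piece of a simplex on which a linear form of barycentric coordinates is small
-/

namespace Helper41.LC

open Helper67.Cube MeasureTheory Set

/-- the cone over `C` -/
def coneOver {d : ℕ} (C : Set (Fin d → ℝ)) : Set (Fin (d+1) → ℝ) :=
  {p | 0 < p 0 ∧ p 0 ≤ 1 ∧ (fun i : Fin d => (p 0)⁻¹ * p i.succ) ∈ C}

lemma volume_coneOver {d : ℕ} (C : Set (Fin d → ℝ)) (hC : MeasurableSet C) :
    volume (coneOver C) = ENNReal.ofReal (1 / (d + 1)) * volume C := by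
  have e := volume_preserving_piFinSuccAbove (fun _ : Fin (d+1) => ℝ) 0
  have hpre : coneOver C = (MeasurableEquiv.piFinSuccAbove (fun _ : Fin (d+1) => ℝ) 0) ⁻¹'
      {p : ℝ × (Fin d → ℝ) | (0 < p.1 ∧ p.1 ≤ 1) ∧ (p.1⁻¹ • p.2) ∈ C} := by
    ext x
    simp only [coneOver, mem_ofPred_eq, mem_preimage, MeasurableEquiv.piFinSuccAbove_apply,
      Fin.insertNthEquiv_zero, Fin.consEquiv_symm_apply, and_assoc]
    rfl
  have hm : MeasurableSet {p : ℝ × (Fin d → ℝ) | (0 < p.1 ∧ p.1 ≤ 1) ∧ (p.1⁻¹ • p.2) ∈ C} := by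
    refine MeasurableSet.inter ?_ ?_
    · exact (measurableSet_lt measurable_const measurable_fst).inter
        (measurableSet_le measurable_fst measurable_const)
    · have : Measurable fun p : ℝ × (Fin d → ℝ) => p.1⁻¹ • p.2 :=
        (measurable_fst.inv).smul measurable_snd
      exact this hC
  rw [hpre, e.measure_preimage hm.nullMeasurableSet, Measure.volume_eq_prod, Measure.prod_apply hm]
  have hs : ∀ r : ℝ, volume (Prod.mk r ⁻¹'
      {p : ℝ × (Fin d → ℝ) | (0 < p.1 ∧ p.1 ≤ 1) ∧ (p.1⁻¹ • p.2) ∈ C})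
      = (Ioc 0 1).indicator (fun r => ENNReal.ofReal (r ^ d) * volume C) r := by
    intro r
    by_cases h : r ∈ Ioc 0 1
    · rw [indicator_of_mem h]
      have : (Prod.mk r ⁻¹' {p : ℝ × (Fin d → ℝ) | (0 < p.1 ∧ p.1 ≤ 1) ∧ (p.1⁻¹ • p.2) ∈ C})
          = (fun y => r⁻¹ • y) ⁻¹' C := by
        ext y
        simp only [mem_preimage, mem_ofPred_eq]
        exact ⟨fun h' => h'.2, fun h' => ⟨⟨h.1, h.2⟩, h'⟩⟩
      rw [this, Measure.addHaar_preimage_smul _ (inv_ne_zero h.1.ne')]
      congr 2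
      simp only [Module.finrank_fintype_fun_eq_card, Fintype.card_fin, inv_pow, inv_inv]
      exact abs_of_pos (pow_pos h.1 _)
    · rw [indicator_of_notMem h]
      have : (Prod.mk r ⁻¹' {p : ℝ × (Fin d → ℝ) | (0 < p.1 ∧ p.1 ≤ 1) ∧ (p.1⁻¹ • p.2) ∈ C})
          = ∅ := by
        ext y
        simp only [mem_preimage, mem_ofPred_eq, mem_empty_iff_false, iff_false]
        rintro ⟨h1, h2⟩
        exact h h1
      rw [this]; simp
  simp_rw [hs]
  rw [lintegral_indicator measurableSet_Ioc, lintegral_mul_const _ (by fun_prop)]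
  congr 1
  rw [← ofReal_integral_eq_lintegral_ofReal (μ := volume.restrict (Ioc 0 1))]
  · congr 1
    rw [← intervalIntegral.integral_of_le zero_le_one, integral_pow]
    simp
  · exact (Continuous.integrableOn_Icc (by fun_prop)).mono_set Ioc_subset_Icc_self
  · refine (ae_restrict_iff' measurableSet_Ioc).2 (Filter.Eventually.of_forall fun t ht => ?_)
    exact pow_nonneg ht.1.le _

/-- The volume of a subset of a simplex on which `∑ t_j / m_j ≤ d + 1`. -/
lemma volume_le {d : ℕ} (w : Fin (d+1) → Fin d → ℝ) (C : Set (Fin d → ℝ)) (hC : MeasurableSet C)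
    (m : Fin (d+1) → ℝ) (hm : ∀ j, 0 < m j)
    (h : ∀ x ∈ C, ∃ t : Fin (d+1) → ℝ, (∀ j, 0 ≤ t j) ∧ ∑ j, t j = 1 ∧
      (∀ i, ∑ j, t j * w j i = x i) ∧ ∑ j, t j / m j ≤ d + 1) :
    volume C ≤ ENNReal.ofReal (vdet w * ((d + 1) ^ (d+1) * ∏ j, m j) / d.factorial) := by
  set A : Matrix (Fin (d+1)) (Fin (d+1)) ℝ :=
    (Matrix.diagonal (fun j => ((d : ℝ) + 1) * m j) * bord w).transpose with hA
  have hn : (0 : ℝ) < d + 1 := by positivity
  have hsub : coneOver C ⊆ (Matrix.toLin' A) '' corner (d+1) 1 := by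
    rintro p ⟨hp0, hp1, hpC⟩
    obtain ⟨t, ht, ht1, htx, htm⟩ := h _ hpC
    refine ⟨fun j => p 0 * t j / ((d + 1) * m j), ⟨fun j => ?_, ?_⟩, ?_⟩
    · have := ht j; have := hm j; positivity
    · have : ∀ j, p 0 * t j / ((d + 1) * m j) = p 0 / (d + 1) * (t j / m j) := by
        intro j; have := (hm j).ne'; field_simp
      simp_rw [this]
      rw [← Finset.mul_sum]
      calc p 0 / (d + 1) * ∑ j, t j / m j ≤ p 0 / (d + 1) * (d + 1) := by gcongr
        _ = p 0 := by field_simp
        _ ≤ 1 := hp1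
    · ext k
      have hk : (Matrix.toLin' A (fun j => p 0 * t j / ((d + 1) * m j))) k
          = ∑ j, p 0 * (t j * bord w j k) := by
        rw [Matrix.toLin'_apply]
        simp only [Matrix.mulVec, dotProduct, hA, Matrix.transpose_apply, Matrix.diagonal_mul]
        refine Finset.sum_congr rfl fun j _ => ?_
        have := (hm j).ne'
        field_simp
      rw [hk, ← Finset.mul_sum]
      refine Fin.cases ?_ (fun i => ?_) k
      · simp only [bord, Matrix.of_apply, Fin.cons_zero, mul_one]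
        rw [ht1, mul_one]
      · simp only [bord, Matrix.of_apply, Fin.cons_succ]
        rw [htx i, ← mul_assoc, mul_inv_cancel₀ hp0.ne', one_mul]
  have h1 := measure_mono hsub (μ := volume)
  rw [volume_coneOver C hC, Measure.addHaar_image_linearMap, volume_corner _ _ zero_le_one,
    LinearMap.det_toLin', hA, Matrix.det_transpose, Matrix.det_mul, Matrix.det_diagonal, abs_mul]
    at h1
  have h2 : |∏ j, (((d : ℝ) + 1) * m j)| = (d + 1) ^ (d+1) * ∏ j, m j := by
    rw [abs_of_nonneg (Finset.prod_nonneg fun j _ => by have := hm j; positivity),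
      Finset.prod_mul_distrib]
    simp
  have h3 : |(bord w).det| = vdet w := rfl
  rw [h2, h3, ← ENNReal.ofReal_mul (by
    have := vdet_nonneg w
    have : 0 ≤ ∏ j, m j := Finset.prod_nonneg fun j _ => (hm j).le
    positivity)] at h1
  have h4 : volume C = ENNReal.ofReal (d + 1) * (ENNReal.ofReal (1 / (d + 1)) * volume C) := by
    rw [← mul_assoc, ← ENNReal.ofReal_mul (by positivity)]
    rw [mul_one_div_cancel hn.ne']
    simp
  rw [h4]
  refine (mul_le_mul_right h1 _).trans (le_of_eq ?_)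
  rw [← ENNReal.ofReal_mul (by positivity)]
  congr 1
  rw [Nat.factorial_succ]
  push_cast
  have : (d.factorial : ℝ) ≠ 0 := by positivity
  field_simp
  ring

end Helper41.LC
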