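import Pool.Agent.Helper41.LC.Piece
import Pool.Agent.Helper67.CubeCover

/-!
# The explicit lower bound for covers of the cube
-/

namespace Helper41.LC

open Helper67.Cube MeasureTheory Set

/-- the shrunken cube -/
def box (d : ℕ) (δ : ℝ) : Set (Fin d → ℝ) := univ.pi fun _ => Icc δ (1 - δ)

lemma integral_arcsine (δ : ℝ) (h0 : 0 < δ) (h1 : δ < 1 / 2) :
    ∫ x in Icc δ (1 - δ), (Real.sqrt (x * (1 - x)))⁻¹ = 2 * Real.arcsin (1 - 2 * δ) := by
  rw [integral_Icc_eq_integral_Ioc, ← intervalIntegral.integral_of_le (by linarith)]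
  have hd : ∀ x ∈ uIcc δ (1 - δ), HasDerivAt (fun x => Real.arcsin (2 * x - 1))
      ((Real.sqrt (x * (1 - x)))⁻¹) x := by
    intro x hx
    rw [uIcc_of_le (by linarith)] at hx
    have hx0 : 0 < x := by linarith [hx.1]
    have hx1 : x < 1 := by linarith [hx.2]
    have h2 : HasDerivAt (fun x : ℝ => 2 * x - 1) 2 x := by
      simpa using ((hasDerivAt_id x).const_mul 2).sub_const 1
    have h3 := (Real.hasDerivAt_arcsin (x := 2 * x - 1) (by linarith) (by linarith)).comp x h2
    refine h3.congr_deriv ?_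
    have e : 1 - (2 * x - 1) ^ 2 = 2 ^ 2 * (x * (1 - x)) := by ring
    rw [e, Real.sqrt_mul (by norm_num), Real.sqrt_sq (by norm_num)]
    have : Real.sqrt (x * (1 - x)) ≠ 0 := Real.sqrt_ne_zero'.2 (mul_pos hx0 (by linarith))
    field_simp
  rw [intervalIntegral.integral_eq_sub_of_hasDerivAt hd]
  · have e1 : (2 * (1 - δ) - 1 : ℝ) = 1 - 2 * δ := by ring
    have e2 : (2 * δ - 1 : ℝ) = -(1 - 2 * δ) := by ring
    rw [e1, e2, Real.arcsin_neg]
    ring
  · refine ContinuousOn.intervalIntegrable ?_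
    refine ContinuousOn.inv₀ (by fun_prop) ?_
    intro x hx
    rw [uIcc_of_le (by linarith)] at hx
    have hx0 : 0 < x := by linarith [hx.1]
    have hx1 : x < 1 := by linarith [hx.2]
    exact Real.sqrt_ne_zero'.2 (mul_pos hx0 (by linarith))

lemma measurable_dens (d : ℕ) : Measurable (dens : (Fin d → ℝ) → ℝ) := by
  unfold dens
  fun_prop

lemma lintegral_box (d : ℕ) (δ : ℝ) (h0 : 0 < δ) (h1 : δ < 1 / 2) :
    ∫⁻ x in box d δ, ENNReal.ofReal (dens x) =
      ENNReal.ofReal ((2 * Real.arcsin (1 - 2 * δ)) ^ d) := by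
  have hm : MeasurableSet (box d δ) := MeasurableSet.univ_pi fun _ => measurableSet_Icc
  have hind : ∀ x : Fin d → ℝ, (box d δ).indicator dens x =
      ∏ i, (Icc δ (1 - δ)).indicator (fun t => (Real.sqrt (t * (1 - t)))⁻¹) (x i) := by
    intro x
    by_cases hx : x ∈ box d δ
    · rw [indicator_of_mem hx]
      refine Finset.prod_congr rfl fun i _ => ?_
      rw [indicator_of_mem (hx i (mem_univ i))]
    · rw [indicator_of_notMem hx]
      have : ∃ i, x i ∉ Icc δ (1 - δ) := by
        by_contra h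
        push Not at h
        exact hx fun i _ => h i
      obtain ⟨i, hi⟩ := this
      exact (Finset.prod_eq_zero (Finset.mem_univ i) (indicator_of_notMem hi _)).symm
  have hint : ∫ x in box d δ, dens x = (2 * Real.arcsin (1 - 2 * δ)) ^ d := by
    rw [← integral_indicator hm]
    simp_rw [hind]
    rw [integral_fintype_prod_volume_eq_pow
      (fun t => (Icc δ (1 - δ)).indicator (fun t => (Real.sqrt (t * (1 - t)))⁻¹) t),
      integral_indicator measurableSet_Icc, integral_arcsine δ h0 h1, Fintype.card_fin]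
  rw [← hint, ofReal_integral_eq_lintegral_ofReal]
  · refine IntegrableOn.integrable ?_
    have hc : IsCompact (box d δ) := isCompact_univ_pi fun _ => isCompact_Icc
    refine ContinuousOn.integrableOn_compact hc ?_
    unfold dens
    refine continuousOn_finsetProd _ fun i _ => ContinuousOn.inv₀ (by fun_prop) ?_
    intro x hx
    have := hx i (mem_univ i)
    exact Real.sqrt_ne_zero'.2 (mul_pos (by linarith [this.1]) (by linarith [this.2]))
  · exact Filter.Eventually.of_forall fun x => dens_nonneg x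

/-- one factor of the density -/
lemma factor_le (δ x y : ℝ) (h0 : 0 < δ) (hx : x ∈ Icc δ (1 - δ)) (hy : y ∈ Icc δ (1 - δ)) :
    (Real.sqrt (x * (1 - x)))⁻¹ ≤ Real.exp (|x - y| / (2 * δ)) * (Real.sqrt (y * (1 - y)))⁻¹ := by
  have hx0 : 0 < x := by linarith [hx.1]
  have hx1 : 0 < 1 - x := by linarith [hx.2]
  have hy0 : 0 < y := by linarith [hy.1]
  have hy1 : 0 < 1 - y := by linarith [hy.2]
  have hE : Real.exp (|x - y| / (2 * δ)) = Real.sqrt (Real.exp (|x - y| / δ)) := by
    rw [Real.sqrt_eq_rpow, ← Real.exp_mul]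
    congr 1
    field_simp
  have key : y * (1 - y) ≤ Real.exp (|x - y| / δ) * (x * (1 - x)) := by
    have h2 := Real.add_one_le_exp (|x - y| / δ)
    have h3 : y * (1 - y) ≤ (|x - y| / δ + 1) * (x * (1 - x)) := by
      rcases le_total x y with h | h
      · rw [abs_of_nonpos (by linarith)]
        have h5 : (y - x) ≤ (y - x) / δ * x := by
          rw [div_mul_eq_mul_div, le_div_iff₀ h0]
          exact mul_le_mul_of_nonneg_left hx.1 (by linarith)
        have h6 : y ≤ (-(x - y) / δ + 1) * x := by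
          have : -(x - y) / δ = (y - x) / δ := by ring
          rw [this]; linarith
        calc y * (1 - y) ≤ y * (1 - x) := by gcongr
          _ ≤ ((-(x - y) / δ + 1) * x) * (1 - x) := by gcongr
          _ = _ := by ring
      · rw [abs_of_nonneg (by linarith)]
        have h5 : (x - y) ≤ (x - y) / δ * (1 - x) := by
          rw [div_mul_eq_mul_div, le_div_iff₀ h0]
          exact mul_le_mul_of_nonneg_left (by linarith [hx.2]) (by linarith)
        have h6 : 1 - y ≤ ((x - y) / δ + 1) * (1 - x) := by linarith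
        calc y * (1 - y) ≤ x * (1 - y) := by gcongr
          _ ≤ x * (((x - y) / δ + 1) * (1 - x)) := by gcongr
          _ = _ := by ring
    refine h3.trans ?_
    gcongr
  have h5 : Real.sqrt (y * (1 - y)) ≤ Real.exp (|x - y| / (2 * δ)) * Real.sqrt (x * (1 - x)) := by
    rw [hE, ← Real.sqrt_mul (Real.exp_pos _).le]
    exact Real.sqrt_le_sqrt key
  have hsx : 0 < Real.sqrt (x * (1 - x)) := Real.sqrt_pos.2 (mul_pos hx0 hx1)
  have hsy : 0 < Real.sqrt (y * (1 - y)) := Real.sqrt_pos.2 (mul_pos hy0 hy1)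
  rw [← div_eq_mul_inv, inv_eq_one_div, div_le_div_iff₀ hsx hsy, one_mul]
  exact h5

lemma dens_le {d : ℕ} (δ : ℝ) (h0 : 0 < δ) (x y : Fin d → ℝ) (hx : x ∈ box d δ)
    (hy : y ∈ box d δ) : dens x ≤ Real.exp ((∑ i, |x i - y i|) / (2 * δ)) * dens y := by
  unfold dens
  rw [Finset.sum_div, Real.exp_sum, ← Finset.prod_mul_distrib]
  refine Finset.prod_le_prod (fun i _ => inv_nonneg.2 (Real.sqrt_nonneg _)) fun i _ => ?_
  exact factor_le δ (x i) (y i) h0 (hx i (mem_univ i)) (hy i (mem_univ i))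

lemma sum_abs_le {d s : ℕ} (hs : 0 < s) (x y z : Fin d → ℝ)
    (hx : ∑ i, (x i - z i) ^ 2 ≤ d / (4 * s)) (hy : ∑ i, (y i - z i) ^ 2 ≤ d / (4 * s)) :
    ∑ i, |x i - y i| ≤ d / Real.sqrt s := by
  have hs' : (0 : ℝ) < s := by exact_mod_cast hs
  have h1 : ∑ i, (x i - y i) ^ 2 ≤ d / s := by
    calc ∑ i, (x i - y i) ^ 2 ≤ ∑ i, (2 * (x i - z i) ^ 2 + 2 * (y i - z i) ^ 2) := by
          refine Finset.sum_le_sum fun i _ => ?_
          nlinarith [sq_nonneg ((x i - z i) + (y i - z i))]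
      _ = 2 * ∑ i, (x i - z i) ^ 2 + 2 * ∑ i, (y i - z i) ^ 2 := by
          rw [Finset.sum_add_distrib, Finset.mul_sum, Finset.mul_sum]
      _ ≤ 2 * (d / (4 * s)) + 2 * (d / (4 * s)) := by gcongr
      _ = d / s := by field_simp; ring
  have h3 : (∑ i, |x i - y i|) ^ 2 ≤ d * ∑ i, (x i - y i) ^ 2 := by
    have := sq_sum_le_card_mul_sum_sq (s := (Finset.univ : Finset (Fin d)))
      (f := fun i => |x i - y i|)
    simpa [sq_abs] using this
  have h4 : (∑ i, |x i - y i|) ^ 2 ≤ (d / Real.sqrt s) ^ 2 := by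
    refine h3.trans ?_
    rw [div_pow, Real.sq_sqrt hs'.le]
    calc (d : ℝ) * ∑ i, (x i - y i) ^ 2 ≤ d * (d / s) := by gcongr
      _ = d ^ 2 / s := by ring
  exact (sq_le_sq₀ (Finset.sum_nonneg fun i _ => abs_nonneg _) (by positivity)).1 h4

/-- a piece of a member of the cover -/
def pieceSet {d : ℕ} (w : Fin (d+1) → Fin d → ℝ) (δ : ℝ) (s : ℕ) (J : Fin s → Fin (d+1)) :
    Set (Fin d → ℝ) :=
  body w ∩ (box d δ ∩ {x | ∑ i, (x i - (∑ a, w (J a) i) / s) ^ 2 ≤ (d : ℝ) / (4 * s)})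

lemma isClosed_pieceSet {d : ℕ} (w : Fin (d+1) → Fin d → ℝ) (δ : ℝ) (s : ℕ)
    (J : Fin s → Fin (d+1)) : IsClosed (pieceSet w δ s J) := by
  refine IsClosed.inter ((finite_range w).isClosed_convexHull (𝕜 := ℝ)) (IsClosed.inter ?_ ?_)
  · exact isClosed_set_pi fun _ _ => isClosed_Icc
  · exact isClosed_le (by fun_prop) continuous_const

lemma convex_pieceSet {d : ℕ} (w : Fin (d+1) → Fin d → ℝ) (δ : ℝ) (s : ℕ)
    (J : Fin s → Fin (d+1)) : Convex ℝ (pieceSet w δ s J) := by
  refine (convex_convexHull ℝ _).inter (Convex.inter ?_ ?_)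
  · exact convex_pi fun _ _ => convex_Icc _ _
  · intro x hx y hy a b ha hb hab
    simp only [mem_ofPred_eq] at hx hy ⊢
    set z : Fin d → ℝ := fun i => (∑ a, w (J a) i) / s with hz
    calc ∑ i, ((a • x + b • y) i - z i) ^ 2
        ≤ ∑ i, (a * (x i - z i) ^ 2 + b * (y i - z i) ^ 2) := by
          refine Finset.sum_le_sum fun i _ => ?_
          simp only [Pi.add_apply, Pi.smul_apply, smul_eq_mul]
          have e : b = 1 - a := by linarith
          subst e
          have : a * (x i - z i) ^ 2 + (1 - a) * (y i - z i) ^ 2 -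
              (a * x i + (1 - a) * y i - z i) ^ 2 = a * (1 - a) * (x i - y i) ^ 2 := by ring
          have h2 : 0 ≤ a * (1 - a) * (x i - y i) ^ 2 := by positivity
          linarith
      _ = a * ∑ i, (x i - z i) ^ 2 + b * ∑ i, (y i - z i) ^ 2 := by
          rw [Finset.sum_add_distrib, Finset.mul_sum, Finset.mul_sum]
      _ ≤ a * (d / (4 * s)) + b * (d / (4 * s)) := by
          have h1 := hx
          have h2 := hy
          exact add_le_add (mul_le_mul_of_nonneg_left h1 ha) (mul_le_mul_of_nonneg_left h2 hb)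
      _ = d / (4 * s) := by rw [← add_mul, hab, one_mul]

/-- The explicit lower bound for the number of members of a cover of the cube. -/
theorem explicit {d N : ℕ} (W : Fin N → Fin (d+1) → Fin d → ℝ) (hW : IsCover W) (δ : ℝ)
    (h0 : 0 < δ) (h1 : δ < 1 / 2) (s : ℕ) (hs : 0 < s) :
    (2 * Real.arcsin (1 - 2 * δ)) ^ d ≤ N * ((d : ℝ) + 1) ^ s *
      (Real.exp (d / Real.sqrt s / (2 * δ)) * Real.sqrt (((d : ℝ) + 1) ^ (d+1)) / d.factorial) := by
  set K : ℝ := Real.exp (d / Real.sqrt s / (2 * δ)) * Real.sqrt (((d : ℝ) + 1) ^ (d+1)) /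
    d.factorial with hK
  have hK0 : 0 ≤ K := by positivity
  have hcov : box d δ ⊆ ⋃ p : Fin N × (Fin s → Fin (d+1)), pieceSet (W p.1) δ s p.2 := by
    intro x hx
    have hxc : x ∈ cube d := by
      intro i
      have := hx i (mem_univ i)
      exact ⟨by linarith [this.1], by linarith [this.2]⟩
    rw [← hW.2, mem_iUnion] at hxc
    obtain ⟨σ, hσ⟩ := hxc
    obtain ⟨t, ht, htx⟩ := body_mem (W σ) univ x hσ (mem_univ x)
    obtain ⟨J, hJ⟩ := maurey (W σ) (hW.inUnit σ) t ht.1 ht.2.1 x (fun i => by rw [← htx]) s hs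
    rw [mem_iUnion]
    exact ⟨(σ, J), hσ, hx, hJ⟩
  have hpiece : ∀ p : Fin N × (Fin s → Fin (d+1)),
      ∫⁻ x in pieceSet (W p.1) δ s p.2, ENNReal.ofReal (dens x) ≤ ENNReal.ofReal K := by
    intro p
    refine piece (W p.1) (hW.inUnit p.1) _ (isClosed_pieceSet _ _ _ _) (convex_pieceSet _ _ _ _)
      inter_subset_left ?_ _ (Real.exp_pos _).le ?_
    · intro x hx i
      have := hx.2.1 i (mem_univ i)
      exact ⟨by linarith [this.1], by linarith [this.2]⟩
    · intro x hx y hy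
      refine (dens_le δ h0 x y hx.2.1 hy.2.1).trans ?_
      refine mul_le_mul_of_nonneg_right (Real.exp_le_exp.2 ?_) (dens_nonneg y)
      have := sum_abs_le hs x y _ hx.2.2 hy.2.2
      gcongr
  have h2 : ENNReal.ofReal ((2 * Real.arcsin (1 - 2 * δ)) ^ d) ≤
      ∑ _p : Fin N × (Fin s → Fin (d+1)), ENNReal.ofReal K := by
    rw [← lintegral_box d δ h0 h1]
    calc ∫⁻ x in box d δ, ENNReal.ofReal (dens x)
        ≤ ∫⁻ x in ⋃ p : Fin N × (Fin s → Fin (d+1)), pieceSet (W p.1) δ s p.2,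
            ENNReal.ofReal (dens x) := lintegral_mono_set hcov
      _ ≤ ∑' p : Fin N × (Fin s → Fin (d+1)), ∫⁻ x in pieceSet (W p.1) δ s p.2,
            ENNReal.ofReal (dens x) := lintegral_iUnion_le _ _
      _ = ∑ p : Fin N × (Fin s → Fin (d+1)), ∫⁻ x in pieceSet (W p.1) δ s p.2,
            ENNReal.ofReal (dens x) := tsum_fintype _
      _ ≤ _ := Finset.sum_le_sum fun p _ => hpiece p
  rw [← ENNReal.ofReal_sum_of_nonneg (fun _ _ => hK0), ENNReal.ofReal_le_ofReal_iff (by
    exact Finset.sum_nonneg fun _ _ => hK0)] at h2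
  refine h2.trans (le_of_eq ?_)
  simp only [Finset.sum_const, Finset.card_univ, Fintype.card_prod, Fintype.card_fin,
    Fintype.card_fun, nsmul_eq_mul]
  push_cast
  ring

end Helper41.LC
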