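import Pool.Agent.Helper67.CubeHad

/-!
# Hadamard's inequality for the covariance matrix of a simplex
-/

namespace Helper41.LC

open Helper67.Cube

/-- variance bound -/
lemma var_le {ι : Type*} [Fintype ι] (t u : ι → ℝ) (ht : ∀ j, 0 ≤ t j) (h1 : ∑ j, t j = 1)
    (hu : ∀ j, 0 ≤ u j ∧ u j ≤ 1) (x : ℝ) (hx : ∑ j, t j * u j = x) :
    ∑ j, t j * (u j - x) ^ 2 ≤ x * (1 - x) := by
  have h2 : ∑ j, t j * (u j - x) ^ 2 = ∑ j, t j * u j ^ 2 - x ^ 2 := by
    have : ∀ j, t j * (u j - x) ^ 2 = t j * u j ^ 2 - 2 * x * (t j * u j) + x ^ 2 * t j := by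
      intro j; ring
    simp_rw [this]
    rw [Finset.sum_add_distrib, Finset.sum_sub_distrib, ← Finset.mul_sum, ← Finset.mul_sum, hx, h1]
    ring
  have h3 : ∑ j, t j * u j ^ 2 ≤ ∑ j, t j * u j := by
    refine Finset.sum_le_sum fun j _ => ?_
    have := hu j
    exact mul_le_mul_of_nonneg_left (by nlinarith) (ht j)
  rw [h2]
  rw [hx] at h3
  nlinarith

lemma vdet_sub {d : ℕ} (w : Fin (d+1) → Fin d → ℝ) (x : Fin d → ℝ) :
    vdet (fun j i => w j i - x i) = vdet w := by
  unfold vdet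
  rw [det_bord, det_bord]
  congr 2
  ext i j
  simp [edge]

/-- Hadamard's inequality for the covariance matrix. -/
lemma vdet_sq_mul_prod_le {d : ℕ} (w : Fin (d+1) → Fin d → ℝ) (hw : InUnit w)
    (t : Fin (d+1) → ℝ) (ht : ∀ j, 0 ≤ t j) (h1 : ∑ j, t j = 1) (x : Fin d → ℝ)
    (hx : ∀ i, ∑ j, t j * w j i = x i) :
    vdet w * Real.sqrt (∏ j, t j) ≤ ∏ i, Real.sqrt (x i * (1 - x i)) := by
  have hA := abs_det_le_prod
    ((Matrix.diagonal (fun j => Real.sqrt (t j)) * bord (fun j i => w j i - x i)).transpose)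
  rw [Matrix.det_transpose, Matrix.det_mul, Matrix.det_diagonal, abs_mul,
    abs_of_nonneg (Finset.prod_nonneg fun j _ => Real.sqrt_nonneg _)] at hA
  have e1 : |(bord (fun j i => w j i - x i)).det| = vdet w := by
    rw [← vdet_sub w x]; rfl
  rw [e1] at hA
  have e2 : ∏ j, Real.sqrt (t j) = Real.sqrt (∏ j, t j) := by
    rw [Real.sqrt_eq_rpow, ← Real.finsetProd_rpow _ _ (fun j _ => ht j)]
    simp [Real.sqrt_eq_rpow]
  rw [e2, mul_comm] at hA
  refine hA.trans ?_
  rw [Fin.prod_univ_succ]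
  have e3 : Real.sqrt (∑ j, ((Matrix.diagonal (fun j => Real.sqrt (t j)) *
      bord (fun j i => w j i - x i)).transpose) 0 j ^ 2) = 1 := by
    have : ∀ j, ((Matrix.diagonal (fun j => Real.sqrt (t j)) *
      bord (fun j i => w j i - x i)).transpose) 0 j ^ 2 = t j := by
      intro j
      rw [Matrix.transpose_apply, Matrix.diagonal_mul]
      simp only [bord, Matrix.of_apply, Fin.cons_zero, mul_one]
      exact Real.sq_sqrt (ht j)
    simp_rw [this]
    rw [h1, Real.sqrt_one]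
  rw [e3, one_mul]
  refine Finset.prod_le_prod (fun i _ => Real.sqrt_nonneg _) fun i _ => ?_
  refine Real.sqrt_le_sqrt ?_
  have : ∀ j, ((Matrix.diagonal (fun j => Real.sqrt (t j)) *
      bord (fun j i => w j i - x i)).transpose) i.succ j ^ 2 = t j * (w j i - x i) ^ 2 := by
    intro j
    rw [Matrix.transpose_apply, Matrix.diagonal_mul]
    simp only [bord, Matrix.of_apply, Fin.cons_succ]
    rw [mul_pow, Real.sq_sqrt (ht j)]
  simp_rw [this]
  exact var_le t (fun j => w j i) ht h1 (fun j => hw j i) (x i) (hx i)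

end Helper41.LC
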