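import Pool.Agent.Helper41.LC.Had

/-!
# Averages of few vertices approximate every point of a simplex (Maurey)
-/

namespace Helper41.LC

open Helper67.Cube

/-- a weighted average attains at most its mean somewhere -/
lemma exists_le_avg {ι : Type*} [Fintype ι] (t a : ι → ℝ) (ht : ∀ j, 0 ≤ t j)
    (h1 : ∑ j, t j = 1) (V : ℝ) (h : ∑ j, t j * a j ≤ V) : ∃ j, a j ≤ V := by
  by_contra hne
  push Not at hne
  have h2 : ∑ j, t j * V ≤ ∑ j, t j * a j :=
    Finset.sum_le_sum fun j _ => mul_le_mul_of_nonneg_left (hne j).le (ht j)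
  rw [← Finset.sum_mul, h1, one_mul] at h2
  have h3 : ∑ j, t j * a j = V := le_antisymm h h2
  have h4 : ∑ j, t j * (a j - V) = 0 := by
    simp_rw [mul_sub]
    rw [Finset.sum_sub_distrib, ← Finset.sum_mul, h1, h3]; ring
  have h5 := (Finset.sum_eq_zero_iff_of_nonneg (fun j _ =>
    mul_nonneg (ht j) (sub_nonneg.2 (hne j).le))).1 h4
  have h6 : ∀ j, t j = 0 := by
    intro j
    have := h5 j (Finset.mem_univ _)
    rcases mul_eq_zero.1 this with h | h
    · exact h
    · exact absurd h (by have := hne j; intro h'; linarith)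
  simp [h6] at h1

/-- greedy choice of the vertices -/
lemma exists_seq {n d : ℕ} (v : Fin n → Fin d → ℝ) (t : Fin n → ℝ) (ht : ∀ j, 0 ≤ t j)
    (h1 : ∑ j, t j = 1) (h0 : ∀ i, ∑ j, t j * v j i = 0) (V : ℝ)
    (hV : ∑ j, t j * ∑ i, v j i ^ 2 ≤ V) :
    ∀ s : ℕ, ∃ J : Fin s → Fin n, ∑ i, (∑ a, v (J a) i) ^ 2 ≤ s * V := by
  intro s
  induction s with
  | zero => exact ⟨fun a => a.elim0, by simp⟩
  | succ s ih =>
    obtain ⟨J, hJ⟩ := ih
    set S : Fin d → ℝ := fun i => ∑ a, v (J a) i with hS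
    obtain ⟨j, hj⟩ := exists_le_avg t (fun j => ∑ i, (S i + v j i) ^ 2) ht h1
      (∑ i, S i ^ 2 + V) (by
        have : ∀ j, t j * ∑ i, (S i + v j i) ^ 2 =
            t j * ∑ i, S i ^ 2 + 2 * ∑ i, S i * (t j * v j i) + t j * ∑ i, v j i ^ 2 := by
          intro j
          have h : ∀ i, (S i + v j i) ^ 2 = S i ^ 2 + 2 * (S i * v j i) + v j i ^ 2 := by
            intro i; ring
          simp_rw [h]
          rw [Finset.sum_add_distrib, Finset.sum_add_distrib, mul_add, mul_add,
            ← Finset.mul_sum (a := (2 : ℝ))]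
          have : t j * (2 * ∑ i, S i * v j i) = 2 * ∑ i, S i * (t j * v j i) := by
            rw [mul_left_comm, Finset.mul_sum]
            congr 1
            exact Finset.sum_congr rfl fun i _ => by ring
          rw [this]
        simp_rw [this]
        rw [Finset.sum_add_distrib, Finset.sum_add_distrib, ← Finset.sum_mul, h1, one_mul,
          ← Finset.mul_sum, Finset.sum_comm]
        have h2 : ∑ i, ∑ j, S i * (t j * v j i) = 0 := by
          refine Finset.sum_eq_zero fun i _ => ?_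
          rw [← Finset.mul_sum, h0 i, mul_zero]
        rw [h2]
        linarith)
    refine ⟨Fin.snoc (α := fun _ => Fin n) J j, ?_⟩
    have h2 : ∀ i, ∑ a, v (Fin.snoc (α := fun _ => Fin n) J j a) i = S i + v j i := by
      intro i
      rw [Fin.sum_univ_castSucc]
      simp [hS]
    simp_rw [h2]
    push_cast
    linarith

/-- Maurey's lemma for simplices in the cube -/
lemma maurey {d : ℕ} (w : Fin (d+1) → Fin d → ℝ) (hw : InUnit w) (t : Fin (d+1) → ℝ)
    (ht : ∀ j, 0 ≤ t j) (h1 : ∑ j, t j = 1) (x : Fin d → ℝ)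
    (hx : ∀ i, ∑ j, t j * w j i = x i) (s : ℕ) (hs : 0 < s) :
    ∃ J : Fin s → Fin (d+1), ∑ i, (x i - (∑ a, w (J a) i) / s) ^ 2 ≤ d / (4 * s) := by
  have hs' : (0 : ℝ) < s := by exact_mod_cast hs
  obtain ⟨J, hJ⟩ := exists_seq (fun j i => w j i - x i) t ht h1 (by
    intro i
    simp_rw [mul_sub]
    rw [Finset.sum_sub_distrib, ← Finset.sum_mul, h1, hx i]; ring) (d / 4) (by
    simp_rw [Finset.mul_sum]
    rw [Finset.sum_comm]
    calc ∑ i : Fin d, ∑ j, t j * (w j i - x i) ^ 2 ≤ ∑ i : Fin d, (1 / 4 : ℝ) := by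
          refine Finset.sum_le_sum fun i _ => ?_
          refine (var_le t (fun j => w j i) ht h1 (fun j => hw j i) (x i) (hx i)).trans ?_
          nlinarith [sq_nonneg (x i - 1 / 2)]
      _ = d / 4 := by simp; ring) s
  refine ⟨J, ?_⟩
  have h2 : ∀ i, (x i - (∑ a, w (J a) i) / s) ^ 2 = (∑ a, (w (J a) i - x i)) ^ 2 / s ^ 2 := by
    intro i
    rw [Finset.sum_sub_distrib]
    simp only [Finset.sum_const, Finset.card_univ, Fintype.card_fin, nsmul_eq_mul]
    field_simp
    ring
  simp_rw [h2]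
  rw [← Finset.sum_div, div_le_iff₀ (by positivity)]
  refine hJ.trans (le_of_eq ?_)
  field_simp

end Helper41.LC
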