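import Pool.Agent.Helper41.LC.Cone
import Pool.Agent.Helper41.LC.Maurey

/-!
# The arcsine measure of a piece of a simplex
-/

namespace Helper41.LC

open Helper67.Cube MeasureTheory Set

lemma prod_expand {ι : Type*} (s : Finset ι) (c : ι → ℝ) : ∃ B : ℝ, 0 ≤ B ∧
    ∀ τ : ℝ, 0 ≤ τ → τ ≤ 1 → |∏ j ∈ s, (1 + τ * c j) - (1 + τ * ∑ j ∈ s, c j)| ≤ B * τ ^ 2 := by
  classical
  induction s using Finset.induction_on with
  | empty => exact ⟨0, le_rfl, fun τ _ _ => by simp⟩
  | insert a s ha ih =>
    obtain ⟨B, hB, h⟩ := ih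
    refine ⟨|c a| * |∑ j ∈ s, c j| + B * (1 + |c a|), by positivity, fun τ h0 h1 => ?_⟩
    rw [Finset.prod_insert ha, Finset.sum_insert ha]
    have hh := h τ h0 h1
    set P := ∏ j ∈ s, (1 + τ * c j)
    set S := ∑ j ∈ s, c j
    have e : (1 + τ * c a) * P - (1 + τ * (c a + S)) =
        τ ^ 2 * (c a * S) + (P - (1 + τ * S)) * (1 + τ * c a) := by ring
    rw [e]
    refine (abs_add_le _ _).trans ?_
    rw [abs_mul, abs_mul, abs_mul, abs_of_nonneg (sq_nonneg τ)]
    have h2 : |1 + τ * c a| ≤ 1 + |c a| := by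
      refine (abs_add_le _ _).trans ?_
      rw [abs_one, abs_mul, abs_of_nonneg h0]
      have := abs_nonneg (c a)
      nlinarith
    have h3 : |P - (1 + τ * S)| * |1 + τ * c a| ≤ (B * τ ^ 2) * (1 + |c a|) := by
      gcongr
    nlinarith

/-- first-order condition for a maximum of the product -/
lemma sum_div_le {n : ℕ} (m t : Fin n → ℝ) (hm : ∀ j, 0 < m j)
    (h : ∀ τ : ℝ, 0 ≤ τ → τ ≤ 1 → ∏ j, ((1 - τ) * m j + τ * t j) ≤ ∏ j, m j) :
    ∑ j, t j / m j ≤ n := by
  obtain ⟨B, hB, hP⟩ := prod_expand Finset.univ (fun j => t j / m j - 1)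
  have h1 : ∀ τ : ℝ, 0 ≤ τ → τ ≤ 1 → ∏ j, (1 + τ * (t j / m j - 1)) ≤ 1 := by
    intro τ h0 h1
    have h2 := h τ h0 h1
    have e : ∏ j, ((1 - τ) * m j + τ * t j) = (∏ j, (1 + τ * (t j / m j - 1))) * ∏ j, m j := by
      rw [← Finset.prod_mul_distrib]
      refine Finset.prod_congr rfl fun j _ => ?_
      have := (hm j).ne'
      field_simp
      ring
    rw [e] at h2
    have h3 : 0 < ∏ j, m j := Finset.prod_pos fun j _ => hm j
    nlinarith
  set S := ∑ j, (t j / m j - 1) with hS
  have e : S = ∑ j, t j / m j - n := by simp [hS]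
  by_contra hne
  push Not at hne
  have hSpos : 0 < S := by rw [e]; linarith
  set τ : ℝ := min 1 (S / (2 * (B + 1))) with hτ
  have h0 : 0 < τ := lt_min one_pos (by positivity)
  have h2 := hP τ h0.le (min_le_left _ _)
  have h3 := h1 τ h0.le (min_le_left _ _)
  have h4 := (abs_le.1 h2).1
  have h5 : τ * S ≤ B * τ ^ 2 := by linarith
  have h6 : S ≤ B * τ := by nlinarith
  have h7 : τ ≤ S / (2 * (B + 1)) := min_le_right _ _
  have h8 : B * τ ≤ B * (S / (2 * (B + 1))) := by gcongr
  have h9 : B * (S / (2 * (B + 1))) < S := by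
    rw [mul_div_assoc', div_lt_iff₀ (by positivity)]
    nlinarith
  linarith

/-- the density of the arcsine measure -/
noncomputable def dens {d : ℕ} (x : Fin d → ℝ) : ℝ := ∏ i, (Real.sqrt (x i * (1 - x i)))⁻¹

lemma dens_nonneg {d : ℕ} (x : Fin d → ℝ) : 0 ≤ dens x :=
  Finset.prod_nonneg fun i _ => inv_nonneg.2 (Real.sqrt_nonneg _)

/-- the barycentric coordinates of the points of a piece -/
def coords {d : ℕ} (w : Fin (d+1) → Fin d → ℝ) (C : Set (Fin d → ℝ)) : Set (Fin (d+1) → ℝ) :=
  {t | (∀ j, 0 ≤ t j) ∧ ∑ j, t j = 1 ∧ (fun i => ∑ j, t j * w j i) ∈ C}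

lemma isCompact_coords {d : ℕ} (w : Fin (d+1) → Fin d → ℝ) (C : Set (Fin d → ℝ))
    (hC : IsClosed C) : IsCompact (coords w C) := by
  have h1 : IsClosed (coords w C) := by
    have e : coords w C = (⋂ j, {t | 0 ≤ t j}) ∩ ({t | ∑ j, t j = 1} ∩
        (fun t : Fin (d+1) → ℝ => fun i => ∑ j, t j * w j i) ⁻¹' C) := by
      ext t; simp [coords]
    rw [e]
    refine (isClosed_iInter fun j => isClosed_le continuous_const (continuous_apply j)).inter
      ((isClosed_eq (by fun_prop) continuous_const).inter (hC.preimage ?_))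
    fun_prop
  refine (isCompact_univ_pi (fun _ : Fin (d+1) => isCompact_Icc (a := (0:ℝ)) (b := 1))).of_isClosed_subset
    h1 ?_
  rintro t ⟨h0, h2, -⟩ j -
  refine ⟨h0 j, ?_⟩
  rw [← h2]
  exact Finset.single_le_sum (fun j _ => h0 j) (Finset.mem_univ j)

lemma convex_coords {d : ℕ} (w : Fin (d+1) → Fin d → ℝ) (C : Set (Fin d → ℝ))
    (hC : Convex ℝ C) : Convex ℝ (coords w C) := by
  rintro s ⟨hs0, hs1, hsC⟩ t ⟨ht0, ht1, htC⟩ a b ha hb hab
  refine ⟨fun j => ?_, ?_, ?_⟩
  · have := hs0 j; have := ht0 j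
    simp only [Pi.add_apply, Pi.smul_apply, smul_eq_mul]
    positivity
  · simp only [Pi.add_apply, Pi.smul_apply, smul_eq_mul]
    rw [Finset.sum_add_distrib, ← Finset.mul_sum, ← Finset.mul_sum, hs1, ht1]; linarith
  · have h := hC hsC htC ha hb hab
    have e : (fun i => ∑ j, (a • s + b • t) j * w j i) =
        a • (fun i => ∑ j, s j * w j i) + b • (fun i => ∑ j, t j * w j i) := by
      ext i
      simp only [Pi.add_apply, Pi.smul_apply, smul_eq_mul, Finset.mul_sum]
      rw [← Finset.sum_add_distrib]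
      exact Finset.sum_congr rfl fun j _ => by ring
    rw [e]; exact h

lemma body_mem {d : ℕ} (w : Fin (d+1) → Fin d → ℝ) (C : Set (Fin d → ℝ)) (x : Fin d → ℝ)
    (hx : x ∈ body w) (hC : x ∈ C) : ∃ t ∈ coords w C, (fun i => ∑ j, t j * w j i) = x := by
  unfold body at hx
  rw [mem_hull_range] at hx
  obtain ⟨t, h0, h1, h2⟩ := hx
  have e : (fun i => ∑ j, t j * w j i) = x := by
    rw [← h2]; ext i; simp [Finset.sum_apply]
  exact ⟨t, ⟨h0, h1, by rw [e]; exact hC⟩, e⟩

/-- a piece with a missing coordinate has volume zero -/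
lemma volume_eq_zero {d : ℕ} (w : Fin (d+1) → Fin d → ℝ) (C : Set (Fin d → ℝ))
    (hC : MeasurableSet C) (hCw : C ⊆ body w) (j₀ : Fin (d+1))
    (h : ∀ t ∈ coords w C, t j₀ = 0) : volume C = 0 := by
  have key : ∀ ε : ℝ, 0 < ε → volume C ≤
      ENNReal.ofReal (vdet w * ((d + 1) ^ (d+1) * ε) / d.factorial) := by
    intro ε hε
    have hh := volume_le w C hC (fun j => if j = j₀ then ε else 1)
      (fun j => by split <;> positivity) (by
        intro x hx
        obtain ⟨t, htK, htx⟩ := body_mem w C x (hCw hx) hx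
        refine ⟨t, htK.1, htK.2.1, fun i => by rw [← htx], ?_⟩
        calc ∑ j, t j / (if j = j₀ then ε else 1) ≤ ∑ j, t j := by
              refine Finset.sum_le_sum fun j _ => ?_
              by_cases hj : j = j₀
              · rw [hj, h t htK]; simp
              · rw [if_neg hj, div_one]
          _ = 1 := htK.2.1
          _ ≤ d + 1 := by
            have : (0 : ℝ) ≤ d := by positivity
            linarith)
    simpa using hh
  have h2 : Filter.Tendsto (fun ε : ℝ => ENNReal.ofReal (vdet w * ((d + 1) ^ (d+1) * ε) / d.factorial))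
      (nhdsWithin 0 (Ioi 0)) (nhds 0) := by
    have : Continuous fun ε : ℝ =>
        ENNReal.ofReal (vdet w * ((d + 1) ^ (d+1) * ε) / d.factorial) :=
      ENNReal.continuous_ofReal.comp (by fun_prop)
    have h3 := (this.tendsto 0).mono_left (nhdsWithin_le_nhds (s := Ioi 0))
    simpa using h3
  refine le_antisymm ?_ bot_le
  exact ge_of_tendsto h2 (eventually_mem_nhdsWithin.mono fun ε hε => key ε hε)

lemma prod_le_of_sum_one {n : ℕ} (hn : 0 < n) (m : Fin n → ℝ) (h0 : ∀ j, 0 ≤ m j)
    (h1 : ∑ j, m j = 1) : ∏ j, m j ≤ ((n : ℝ) ^ n)⁻¹ := by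
  have hn' : (0 : ℝ) < n := by exact_mod_cast hn
  have h := Real.geom_mean_le_arith_mean_weighted Finset.univ (fun _ : Fin n => (1 : ℝ) / n) m
    (fun _ _ => by positivity) (by simp [hn'.ne']) (fun j _ => h0 j)
  rw [← Finset.mul_sum, h1, mul_one, Real.finsetProd_rpow _ _ (fun j _ => h0 j)] at h
  have h2 : ∏ j, m j = ((∏ j, m j) ^ ((1 : ℝ) / n)) ^ n := by
    rw [← Real.rpow_natCast, ← Real.rpow_mul (Finset.prod_nonneg fun j _ => h0 j),
      one_div_mul_cancel hn'.ne', Real.rpow_one]
  rw [h2]
  calc ((∏ j, m j) ^ ((1 : ℝ) / n)) ^ n ≤ (1 / n) ^ n := by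
        refine pow_le_pow_left₀ (Real.rpow_nonneg (Finset.prod_nonneg fun j _ => h0 j) _) h n
    _ = ((n : ℝ) ^ n)⁻¹ := by rw [one_div, inv_pow]

/-- The arcsine measure of a convex piece of a simplex on which the density is nearly constant. -/
theorem piece {d : ℕ} (w : Fin (d+1) → Fin d → ℝ) (hw : InUnit w) (C : Set (Fin d → ℝ))
    (hC : IsClosed C) (hconv : Convex ℝ C) (hCw : C ⊆ body w)
    (hpos : ∀ x ∈ C, ∀ i, 0 < x i ∧ x i < 1) (E : ℝ) (hE : 0 ≤ E)
    (hdens : ∀ x ∈ C, ∀ y ∈ C, dens x ≤ E * dens y) :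
    ∫⁻ x in C, ENNReal.ofReal (dens x) ≤
      ENNReal.ofReal (E * Real.sqrt (((d : ℝ) + 1) ^ (d+1)) / d.factorial) := by
  have hCm := hC.measurableSet
  rcases (coords w C).eq_empty_or_nonempty with he | hne
  · have : C = ∅ := by
      by_contra hne
      obtain ⟨x, hx⟩ := nonempty_iff_ne_empty.2 hne
      obtain ⟨t, ht, -⟩ := body_mem w C x (hCw hx) hx
      rw [he] at ht
      exact ht
    rw [this]; simp
  · obtain ⟨m, hmK, hmax⟩ := (isCompact_coords w C hC).exists_isMaxOn hne
      (f := fun t => ∏ j, t j) (by fun_prop)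
    have hmax' : ∀ t ∈ coords w C, ∏ j, t j ≤ ∏ j, m j := fun t ht => hmax ht
    rcases (Finset.prod_nonneg fun j _ => hmK.1 j : 0 ≤ ∏ j, m j).eq_or_lt with h0 | hpos'
    · have : ∃ j₀, ∀ t ∈ coords w C, t j₀ = 0 := by
        by_contra hne2
        push Not at hne2
        choose T hT hTne using hne2
        have hav : ∑ j, ((1 : ℝ) / (d + 1)) • T j ∈ coords w C := by
          refine (convex_coords w C hconv).sum_mem (fun _ _ => by positivity) ?_ (fun j _ => hT j)
          simp only [Finset.sum_const, Finset.card_univ, Fintype.card_fin, nsmul_eq_mul]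
          push_cast
          field_simp
        have h2 := hmax' _ hav
        rw [← h0] at h2
        have h3 : 0 < ∏ j, (∑ k, ((1 : ℝ) / (d + 1)) • T k) j := by
          refine Finset.prod_pos fun j _ => ?_
          rw [Finset.sum_apply]
          refine Finset.sum_pos' (fun k _ => ?_) ⟨j, Finset.mem_univ _, ?_⟩
          · have := (hT k).1 j
            simp only [Pi.smul_apply, smul_eq_mul]
            positivity
          · have h4 := (hT j).1 j
            have h5 : 0 < T j j := lt_of_le_of_ne h4 (Ne.symm (hTne j))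
            simp only [Pi.smul_apply, smul_eq_mul]
            positivity
        linarith
      obtain ⟨j₀, hj₀⟩ := this
      have hv := volume_eq_zero w C hCm hCw j₀ hj₀
      rw [Measure.restrict_eq_zero.2 hv]
      simp
    · have hmp : ∀ j, 0 < m j := by
        intro j
        refine lt_of_le_of_ne (hmK.1 j) fun h => ?_
        rw [Finset.prod_eq_zero (Finset.mem_univ j) h.symm] at hpos'
        exact lt_irrefl _ hpos'
      have hsum : ∀ t ∈ coords w C, ∑ j, t j / m j ≤ d + 1 := by
        intro t ht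
        have := sum_div_le m t hmp (by
          intro τ h0 h1
          have := hmax' _ (convex_coords w C hconv hmK ht (by linarith : 0 ≤ 1 - τ) h0 (by ring))
          simpa using this)
        push_cast at this
        exact this
      have hvol := volume_le w C hCm m hmp (by
        intro x hx
        obtain ⟨t, htK, htx⟩ := body_mem w C x (hCw hx) hx
        exact ⟨t, htK.1, htK.2.1, fun i => by rw [← htx], hsum t htK⟩)
      set y : Fin d → ℝ := fun i => ∑ j, m j * w j i with hy
      have hyC : y ∈ C := hmK.2.2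
      have hhad := vdet_sq_mul_prod_le w hw m hmK.1 hmK.2.1 y (fun i => rfl)
      have hfy : dens y * ∏ i, Real.sqrt (y i * (1 - y i)) = 1 := by
        unfold dens
        rw [← Finset.prod_mul_distrib]
        refine Finset.prod_eq_one fun i _ => ?_
        have h := hpos y hyC i
        exact inv_mul_cancel₀ (Real.sqrt_ne_zero'.2 (mul_pos h.1 (by linarith [h.2])))
      have hD := vdet_nonneg w
      set Pm := ∏ j, m j with hPm
      have h1 : dens y * (vdet w * Real.sqrt Pm) ≤ 1 := by
        rw [← hfy]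
        exact mul_le_mul_of_nonneg_left hhad (dens_nonneg y)
      have h2 : Real.sqrt Pm ≤ (Real.sqrt (((d : ℝ) + 1) ^ (d+1)))⁻¹ := by
        rw [← Real.sqrt_inv]
        refine Real.sqrt_le_sqrt ?_
        have := prod_le_of_sum_one (Nat.succ_pos d) m hmK.1 hmK.2.1
        push_cast at this
        exact this
      calc ∫⁻ x in C, ENNReal.ofReal (dens x)
          ≤ ∫⁻ x in C, ENNReal.ofReal (E * dens y) := by
            refine setLIntegral_mono' hCm fun x hx => ENNReal.ofReal_le_ofReal (hdens x hx y hyC)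
        _ = ENNReal.ofReal (E * dens y) * volume C := by
            rw [setLIntegral_const]
        _ ≤ ENNReal.ofReal (E * dens y) *
            ENNReal.ofReal (vdet w * ((d + 1) ^ (d+1) * Pm) / d.factorial) := by gcongr
        _ = ENNReal.ofReal (E * dens y * (vdet w * ((d + 1) ^ (d+1) * Pm) / d.factorial)) := by
            rw [← ENNReal.ofReal_mul (mul_nonneg hE (dens_nonneg y))]
        _ ≤ _ := by
            refine ENNReal.ofReal_le_ofReal ?_
            have hs : Real.sqrt Pm * Real.sqrt Pm = Pm := Real.mul_self_sqrt hpos'.le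
            set Q : ℝ := ((d : ℝ) + 1) ^ (d+1) with hQ
            have hQ0 : 0 < Q := by positivity
            have hq : Real.sqrt Q * Real.sqrt Q = Q := Real.mul_self_sqrt hQ0.le
            have hq0 : 0 < Real.sqrt Q := Real.sqrt_pos.2 hQ0
            have h3 : E * dens y * (vdet w * (Q * Pm) / d.factorial) =
                (E * Q / d.factorial) * ((dens y * (vdet w * Real.sqrt Pm)) * Real.sqrt Pm) := by
              have : (d.factorial : ℝ) ≠ 0 := by positivity
              calc E * dens y * (vdet w * (Q * Pm) / d.factorial)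
                  = E * dens y * (vdet w * (Q * (Real.sqrt Pm * Real.sqrt Pm)) / d.factorial) := by
                    rw [hs]
                _ = _ := by ring
            rw [h3]
            have h4 : (dens y * (vdet w * Real.sqrt Pm)) * Real.sqrt Pm ≤ 1 * (Real.sqrt Q)⁻¹ := by
              refine mul_le_mul h1 h2 (Real.sqrt_nonneg _) zero_le_one
            calc (E * Q / d.factorial) * ((dens y * (vdet w * Real.sqrt Pm)) * Real.sqrt Pm)
                ≤ (E * Q / d.factorial) * (1 * (Real.sqrt Q)⁻¹) := by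
                  exact mul_le_mul_of_nonneg_left h4 (by positivity)
              _ = E * Real.sqrt Q / d.factorial := by
                  rw [one_mul]
                  nth_rewrite 1 [← hq]
                  field_simp
end Helper41.LC
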